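import Pool.Agent.Helper95.OD.St

set_option autoImplicit false
set_option linter.unusedVariables false

namespace Pool.Agent.Helper4.OD

open Pool.Agent.Helper95.OD Finset
open scoped Classical

variable {m r : ℕ}

theorem Sw_other (c : Cl m r) (σ : Cfg m r) (d : Cl m r) (h : d.1 ≠ c.1) :
    Pres (Sw c σ) d ↔ Pres σ d := by
  unfold Pres Sw
  rw [Function.update_of_ne h]

theorem Sw_same (c : Cl m r) (σ : Cfg m r) (z : Fin r) :
    (Sw c σ) c.1 z = Equiv.swap (σ c.1 c.2.1) c.2.2 (σ c.1 z) := by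
  unfold Sw
  rw [Function.update_self]
  rfl

/-- the newly present cells -/
theorem new_cell (c : Cl m r) (σ : Cfg m r) (d : Cl m r) (h1 : Pres (Sw c σ) d)
    (h2 : ¬ Pres σ d) : d.1 = c.1 ∧ (d = c ∨ (d.2.1 ≠ c.2.1 ∧ d.2.2 ≠ c.2.2 ∧
      Pres σ (c.1, d.2.1, c.2.2) ∧ Pres σ (c.1, c.2.1, d.2.2))) := by
  have he : d.1 = c.1 := by
    by_contra hne
    exact h2 ((Sw_other c σ d hne).1 h1)
  refine ⟨he, ?_⟩
  obtain ⟨e, z, w⟩ := d
  simp only at he
  subst he
  have h3 : Equiv.swap (σ c.1 c.2.1) c.2.2 (σ c.1 z) = w := by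
    have h4 : (Sw c σ) c.1 z = w := h1
    rw [Sw_same] at h4
    exact h4
  have h5 : σ c.1 z ≠ w := h2
  by_cases hA : σ c.1 z = σ c.1 c.2.1
  · left
    have hz : z = c.2.1 := (σ c.1).injective hA
    rw [hA, Equiv.swap_apply_left] at h3
    rw [hz, ← h3]
  · right
    by_cases hB : σ c.1 z = c.2.2
    · rw [hB, Equiv.swap_apply_right] at h3
      refine ⟨?_, ?_, hB, h3⟩
      · intro hz
        simp only at hz
        rw [hz] at hA
        exact hA rfl
      · intro hw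
        simp only at hw
        rw [hB, hw] at h5
        exact h5 rfl
    · rw [Equiv.swap_apply_of_ne_of_ne hA hB] at h3
      exact absurd h3 h5

theorem hSB : SB := by
  intro hCT m r s A c σ hcA hσ hσ'
  unfold Av at hσ hσ'
  rw [Finset.mem_filter] at hσ hσ'
  have hσ2 := hσ.2
  have h0 : ∃ N ∈ Fam m r s A, ∀ d ∈ N, Pres (Sw c σ) d := by
    by_contra hcon
    push Not at hcon
    exact hσ' ⟨Finset.mem_univ _, hcon⟩
  obtain ⟨N, hN, hpres⟩ := h0
  obtain ⟨d, hdN, hdσ⟩ := hσ2 N hN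
  obtain ⟨hd1, hd2⟩ := new_cell c σ d (hpres d hdN) hdσ
  unfold Fam at hN
  rw [Finset.mem_union] at hN
  rcases hN with hN | hN
  · unfold KB at hN
    rw [Finset.mem_image] at hN
    obtain ⟨X, hX, rfl⟩ := hN
    rw [Finset.mem_filter, Finset.mem_powersetCard] at hX
    obtain ⟨⟨_, hXs⟩, hTv⟩ := hX
    have hTr := (hCT m r s X hTv hXs).1
    have hrest : ∀ d' ∈ (cells X).erase d, Pres σ d' := by
      intro d' hd'
      rw [Finset.mem_erase] at hd'
      have hne : d'.1 ≠ c.1 := by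
        intro h
        exact hd'.1 (hTr d' hd'.2 d hdN (h.trans hd1.symm))
      exact (Sw_other c σ d' hne).1 (hpres d' hd'.2)
    rcases hd2 with rfl | ⟨ha, hb, hp1, hp2⟩
    · left
      exact ⟨X, hTv, hXs, hdN, hrest⟩
    · right
      left
      exact ⟨X, d, hTv, hXs, hdN, hd1, ha, hb, hrest, hp1, hp2⟩
  · rw [Finset.mem_image] at hN
    obtain ⟨b, hbA, rfl⟩ := hN
    rw [Finset.mem_singleton] at hdN
    subst hdN
    rcases hd2 with rfl | ⟨ha, hb, hp1, hp2⟩
    · exact absurd hbA hcA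
    · right
      right
      exact ⟨d, hbA, hd1, ha, hb, hp1, hp2⟩

end Pool.Agent.Helper4.OD
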